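import Mathlib

namespace Pool.Agent.Results.MP_c2c39f_an.SqrtGrowth

open Filter Topology Set Real Matrix MeasureTheory

/-- `x` is a trajectory of the continuous-time system for some measurable switching law -/
def Traj {d : ℕ} (S : Set (Matrix (Fin d) (Fin d) ℝ)) (x : ℝ → Fin d → ℝ) : Prop :=
  ∃ A : ℝ → Matrix (Fin d) (Fin d) ℝ, (∀ i j, Measurable fun t => A t i j) ∧ (∀ t ≥ 0, A t ∈ S) ∧
    ContinuousOn x (Ici 0) ∧ ∀ t ≥ 0, IntervalIntegrable (fun s => A s *ᵥ x s) volume 0 t ∧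
      x t = x 0 + ∫ s in 0..t, A s *ᵥ x s

/-- the Lyapunov exponent -/
noncomputable def lyap {d : ℕ} (S : Set (Matrix (Fin d) (Fin d) ℝ)) : EReal :=
  ⨆ (x : ℝ → Fin d → ℝ) (_ : Traj S x),
    limsup (fun t : ℝ => ((1 / t : ℝ) : EReal) * ENNReal.log ‖x t‖ₑ) atTop

def mat (u : ℝ) : Matrix (Fin 2) (Fin 2) ℝ := !![-u ^ 2, u; 0, 0]

lemma last {f g : ℝ → ℝ} {K c t : ℝ} (ht : 0 ≤ t) (hc : 0 ≤ c) (hf : ContinuousOn f (Ici 0))
    (hg : ∀ t ≥ 0, IntervalIntegrable g volume 0 t ∧ f t = f 0 + ∫ s in 0..t, g s) (h0 : f 0 ≤ K)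
    (h : ∀ s ≥ 0, K < f s → g s ≤ c) : f t ≤ K + c * t := by
  have hcl : IsCompact (Icc 0 t ∩ f ⁻¹' Iic K) := isCompact_Icc.of_isClosed_subset
    ((hf.mono Icc_subset_Ici_self).preimage_isClosed_of_isClosed isClosed_Icc isClosed_Iic)
    inter_subset_left
  obtain ⟨r, ⟨⟨r0, r1⟩, r2⟩, hr⟩ := hcl.exists_isGreatest ⟨0, ⟨le_rfl, ht⟩, h0⟩
  have h1 := intervalIntegral.integral_interval_sub_left (hg t ht).1 (hg r r0).1
  have h2 : ∫ s in r..t, g s ≤ ∫ _ in r..t, c :=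
    intervalIntegral.integral_mono_on_of_le_Ioo r1 ((hg r r0).1.symm.trans (hg t ht).1)
      intervalIntegrable_const fun s hs => h s (r0.trans hs.1.le) (not_le.1 fun e =>
        absurd (hr ⟨⟨r0.trans hs.1.le, hs.2.le⟩, e⟩) (not_le.2 hs.1))
  simp only [intervalIntegral.integral_const, smul_eq_mul] at h2
  have r3 : f r ≤ K := r2
  nlinarith [(hg t ht).2, (hg r r0).2]

lemma bound {x : ℝ → Fin 2 → ℝ} (hx : Traj (mat '' Icc 0 1) x) {K : ℝ} (hK : 0 < K)
    (h0 : ‖x 0‖ ≤ K) {t : ℝ} (ht : 0 ≤ t) : ‖x t‖ ≤ K + ‖x 0‖ ^ 2 / (4 * K) * t := by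
  obtain ⟨A, -, hA, hc, h⟩ := hx
  have hi (L : (Fin 2 → ℝ) →L[ℝ] ℝ) : ∀ t ≥ 0, IntervalIntegrable (fun s => L (A s *ᵥ x s)) volume 0 t ∧
      L (x t) = L (x 0) + ∫ s in 0..t, L (A s *ᵥ x s) := fun t ht =>
    ⟨⟨L.integrable_comp (h t ht).1.1, L.integrable_comp (h t ht).1.2⟩, by
      rw [L.intervalIntegral_comp_comm (h t ht).1, ← map_add, ← (h t ht).2]⟩
  have h1 : ∀ t ≥ 0, x t 1 = x 0 1 := fun t ht => by
    have := (hi (.proj 1) t ht).2
    rw [intervalIntegral.integral_congr (g := fun _ => 0) fun s hs => ?_] at this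
    · simpa using this
    · obtain ⟨u, -, hu⟩ := hA s (by rw [uIcc_of_le ht] at hs; exact hs.1)
      simp [← hu, mat]
  have h2 (i : Fin 2) : |x 0 i| ≤ ‖x 0‖ := norm_le_pi_norm (x 0) i
  have h3 : x 0 1 ^ 2 ≤ ‖x 0‖ ^ 2 := by rw [← sq_abs]; gcongr; exact h2 1
  have hc0 : 0 ≤ ‖x 0‖ ^ 2 / (4 * K) := by positivity
  have key (e : ℝ) (he : |e| = 1) : e * x t 0 ≤ K + ‖x 0‖ ^ 2 / (4 * K) * t := by
    refine last (f := fun t => e * x t 0) ht hc0 (continuousOn_const.mul ((continuous_apply 0).comp_continuousOn hc))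
      (hi (e • .proj 0)) ((le_abs_self _).trans (by rw [abs_mul, he, one_mul]; exact (h2 0).trans h0))
      fun s hs hs' => ?_
    obtain ⟨u, -, hu⟩ := hA s hs
    have : (e • ContinuousLinearMap.proj 0 : (Fin 2 → ℝ) →L[ℝ] ℝ) (A s *ᵥ x s) =
        -u ^ 2 * (e * x s 0) + u * (e * x 0 1) := by
      simp [← hu, mat, ← h1 s hs, vecHead, vecTail]; ring
    have e2 : e ^ 2 = 1 := by rw [← sq_abs, he]; norm_num
    rw [this, le_div_iff₀ (by positivity)]
    have hs'' : K < e * x s 0 := hs'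
    nlinarith [sq_nonneg (2 * K * u - e * x 0 1), mul_le_mul_of_nonneg_left hs''.le
      (by positivity : 0 ≤ 4 * K * u ^ 2)]
  refine (pi_norm_le_iff_of_nonneg (by positivity)).2 fun i => ?_
  fin_cases i
  · show |x t 0| ≤ _
    exact abs_le.2 ⟨by linarith [key (-1) (by simp)], by linarith [key 1 (by simp)]⟩
  · have := h1 t ht
    simp only [Fin.mk_one, this]
    exact ((h2 1).trans h0).trans (le_add_of_nonneg_right (by positivity))

lemma unb : Traj (mat '' Icc 0 1) fun t => ![2 / 3 * √(t + 1), 1] := by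
  refine ⟨fun t => mat (√(t + 1))⁻¹, fun i j => ?_, fun t ht => ⟨_, ⟨by positivity,
    inv_le_one_of_one_le₀ (one_le_sqrt.2 (by linarith))⟩, rfl⟩, by fun_prop, fun t ht => ?_⟩
  · fin_cases i <;> fin_cases j <;> simp [mat] <;> fun_prop
  have hd : ∀ s ∈ uIcc 0 t, HasDerivAt (fun t => ![2 / 3 * √(t + 1), 1])
      (mat (√(s + 1))⁻¹ *ᵥ ![2 / 3 * √(s + 1), 1]) s := fun s hs => by
    rw [uIcc_of_le ht] at hs
    have h1 : 0 < s + 1 := by linarith [hs.1]
    have h2 := sqrt_pos.2 h1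
    refine hasDerivAt_pi.2 fun i => ?_
    fin_cases i
    · refine ((((hasDerivAt_id s).add_const 1).sqrt h1.ne').const_mul (2 / 3)).congr_deriv ?_
      simp [mat, -one_div]
      field_simp
      ring
    · simpa [mat] using hasDerivAt_const s (1 : ℝ)
  have hi : IntervalIntegrable (fun s => mat (√(s + 1))⁻¹ *ᵥ ![2 / 3 * √(s + 1), 1]) volume 0 t := by
    refine ContinuousOn.intervalIntegrable (continuousOn_pi.2 fun i => ?_)
    have : ContinuousOn (fun s => (√(s + 1))⁻¹) (uIcc 0 t) := ContinuousOn.inv₀ (by fun_prop)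
      fun s hs => (sqrt_pos.2 (by rw [uIcc_of_le ht] at hs; linarith [hs.1])).ne'
    fin_cases i
    · simp only [mat, mulVec, dotProduct, Fin.sum_univ_two]
      exact ((this.pow 2).neg.mul (by fun_prop)).add (this.mul continuousOn_const)
    · simpa [mat] using continuousOn_const
  exact ⟨hi, by rw [intervalIntegral.integral_eq_sub_of_hasDerivAt hd hi]; simp⟩

theorem result : ∃ (d : ℕ) (S : Set (Matrix (Fin d) (Fin d) ℝ)), 1 ≤ d ∧ IsCompact S ∧
    lyap S = 0 ∧ (∃ x, Traj S x ∧ ¬ ∃ C, ∀ t ≥ 0, ‖x t‖ ≤ C) ∧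
    ∀ ε > 0, ∀ᶠ t : ℝ in atTop, ∀ x, Traj S x → ‖x 0‖ ≤ 1 → ‖x t‖ ≤ ε * t := by
  refine ⟨2, mat '' Icc 0 1, one_le_two, isCompact_Icc.image ?_, le_antisymm ?_ ?_,
    ⟨_, unb, fun ⟨C, hC⟩ => ?_⟩, fun ε hε => ?_⟩
  · refine continuous_matrix fun i j => ?_
    fin_cases i <;> fin_cases j <;> simp [mat] <;> fun_prop
  · refine iSup₂_le fun x hx => ?_
    set K := ‖x 0‖ + 1
    set c := K + ‖x 0‖ ^ 2 / (4 * K)
    have hK : 0 < K := by positivity
    have hc : 0 < c := by positivity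
    have h1 : Tendsto (fun t : ℝ => 1 / t * log (c * t)) atTop (𝓝 0) := by
      have := ((isLittleO_log_id_atTop.tendsto_div_nhds_zero).comp
        (tendsto_id.const_mul_atTop hc)).const_mul c
      rw [mul_zero] at this
      refine this.congr fun t => ?_
      simp only [Function.comp, id]
      field_simp
    rw [← EReal.coe_zero, ← (EReal.tendsto_coe.2 h1).limsup_eq]
    refine limsup_le_limsup ?_
    filter_upwards [eventually_ge_atTop 1] with t ht
    rw [EReal.coe_mul]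
    refine mul_le_mul_of_nonneg_left ?_ (EReal.coe_nonneg.2 (by positivity))
    rw [← ENNReal.log_ofReal_of_pos (by positivity), ← ofReal_norm]
    refine ENNReal.log_monotone (ENNReal.ofReal_le_ofReal ?_)
    nlinarith [bound hx hK (by simp [K]) (zero_le_one.trans ht)]
  · refine le_iSup₂_of_le _ unb (le_limsup_of_frequently_le' (Eventually.frequently ?_))
    filter_upwards [eventually_ge_atTop 0] with t ht
    refine mul_nonneg (EReal.coe_nonneg.2 (by positivity)) (ENNReal.zero_le_log_iff.2 ?_)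
    rw [← ofReal_norm, ENNReal.one_le_ofReal]
    simpa using norm_le_pi_norm ![2 / 3 * √(t + 1), 1] 1
  · have h1 := (norm_le_pi_norm _ 0).trans (hC ((3 / 2 * C) ^ 2) (by positivity))
    have h2 : 2 / 3 * √((3 / 2 * C) ^ 2 + 1) ≤ C := (le_abs_self _).trans h1
    have h3 := lt_sqrt_of_sq_lt (by linarith : (3 / 2 * C) ^ 2 < (3 / 2 * C) ^ 2 + 1)
    linarith
  · filter_upwards [eventually_ge_atTop 0, eventually_ge_atTop (2 * (1 + 1 / ε) / ε)] with t h0 ht x hx h1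
    have h2 := bound hx (K := 1 + 1 / ε) (by positivity) (h1.trans (by simp [hε.le])) h0
    have h3 : ‖x 0‖ ^ 2 / (4 * (1 + 1 / ε)) ≤ ε / 2 := by
      rw [div_le_iff₀ (by positivity), show ε / 2 * (4 * (1 + 1 / ε)) = 2 * ε + 2 by field_simp; ring]
      nlinarith [norm_nonneg (x 0)]
    rw [div_le_iff₀ hε] at ht
    nlinarith

end Pool.Agent.Results.MP_c2c39f_an.SqrtGrowth
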